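import Pool.Agent.TH760.Base

/-!
# Delta system lemma for functions
-/

set_option autoImplicit false

namespace Pool.Agent.TH785.J659

open Cardinal Set
open Pool.Agent.TH760

/-- The conditions of the delta system lemma. -/
def Gd {Λ M X : Type} (e : Λ → M → X) (r : M → Option X) (H : Set Λ) : Prop :=
  (∀ δ ∈ H, ∀ m x, r m = some x → e δ m = x) ∧
    (∀ δ ∈ H, ∀ δ' ∈ H, δ ≠ δ' → ∀ m m', r m = none → r m' = none → e δ m ≠ e δ' m') ∧
    (∀ δ ∈ H, ∀ m m' x, r m = none → r m' = some x → e δ m ≠ x)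

theorem exists_max {Λ M X : Type} (e : Λ → M → X) (r : M → Option X) :
    ∃ A : Set Λ, Maximal (Gd e r) A := by
  obtain ⟨A, hA⟩ := zorn_subset {H | Gd e r H} (by
    intro c hc hch
    refine ⟨⋃₀ c, ⟨?_, ?_, ?_⟩, fun s hs => subset_sUnion_of_mem hs⟩
    · rintro δ ⟨s, hs, hδ⟩
      exact (hc hs).1 δ hδ
    · rintro δ ⟨s, hs, hδ⟩ δ' ⟨s', hs', hδ'⟩ hne
      rcases hch.total hs hs' with h | h
      · exact (hc hs').2.1 δ (h hδ) δ' hδ' hne
      · exact (hc hs).2.1 δ hδ δ' (h hδ') hne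
    · rintro δ ⟨s, hs, hδ⟩
      exact (hc hs).2.2 δ hδ)
  exact ⟨A, hA⟩

/-- All values of `r` are in `N`. -/
def Valued {M X : Type} (N : Set X) (r : M → Option X) : Prop := ∀ m x, r m = some x → x ∈ N

theorem mk_valued {M X : Type} {τ : Cardinal.{0}} (hM : ℵ₀ ≤ #M) (hτ : τ = 2 ^ #M) {N : Set X}
    (hN : #N ≤ τ) : #{r : M → Option X // Valued N r} ≤ τ := by
  classical
  have h1 : #{r : M → Option X // Valued N r} ≤ #(M → Option N) := by
    let f : {r : M → Option X // Valued N r} → M → Option N := fun r m =>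
      if h : ∃ x, r.1 m = some x then some ⟨h.choose, r.2 m _ h.choose_spec⟩ else none
    refine mk_le_of_injective (f := f) ?_
    intro r r' h
    apply Subtype.ext
    funext m
    have hm := congrFun h m
    have key : ∀ r : {r : M → Option X // Valued N r}, r.1 m = (f r m).map Subtype.val := by
      intro r
      simp only [f]
      split_ifs with h
      · simpa using h.choose_spec
      · rcases hr : r.1 m with _ | x
        · rfl
        · exact absurd ⟨x, hr⟩ h
    rw [key r, key r', hm]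
  refine h1.trans ?_
  have h2 : ℵ₀ ≤ τ := hM.trans (hτ ▸ (cantor _).le)
  have h3 : #(Option N) ≤ τ := by
    rw [mk_option]
    exact add_le_of_le h2 hN (one_le_aleph0.trans h2)
  rw [← power_def]
  refine (power_le_power_right h3).trans ?_
  rw [hτ, ← power_mul, mul_eq_self hM]

/-- One step of the closing process. -/
def step {Λ M X : Type} (e : Λ → M → X) (A : (M → Option X) → Set Λ) (N : Set X) : Set X :=
  N ∪ {x | ∃ r, Valued N r ∧ ∃ d ∈ A r, ∃ m, e d m = x}

theorem mk_step {Λ M X : Type} {τ : Cardinal.{0}} (hM : ℵ₀ ≤ #M) (hτ : τ = 2 ^ #M)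
    (e : Λ → M → X) (A : (M → Option X) → Set Λ) (hA : ∀ r, #(A r) ≤ τ) {N : Set X}
    (hN : #N ≤ τ) : #(step e A N) ≤ τ := by
  have h2 : ℵ₀ ≤ τ := hM.trans (hτ ▸ (cantor _).le)
  have hMτ : #M ≤ τ := hτ ▸ (cantor _).le
  refine (mk_union_le _ _).trans (add_le_of_le h2 hN ?_)
  have h3 : {x | ∃ r, Valued N r ∧ ∃ d ∈ A r, ∃ m, e d m = x} =
      ⋃ r : {r : M → Option X // Valued N r}, ⋃ d : A r.1, ⋃ m : M, {e d m} := by
    ext x
    simp only [mem_ofPred_eq, mem_iUnion, mem_singleton_iff]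
    constructor
    · rintro ⟨r, hr, d, hd, m, rfl⟩
      exact ⟨⟨r, hr⟩, ⟨d, hd⟩, m, rfl⟩
    · rintro ⟨⟨r, hr⟩, ⟨d, hd⟩, m, rfl⟩
      exact ⟨r, hr, d, hd, m, rfl⟩
  rw [h3]
  have hU : ∀ {ι : Type} (f : ι → Set X), #ι ≤ τ → (∀ i, #(f i) ≤ τ) → #(⋃ i, f i) ≤ τ := by
    intro ι f hι hf
    refine (mk_iUnion_le _).trans ?_
    exact (mul_le_mul' hι (ciSup_le' hf)).trans (mul_eq_self h2).le
  refine hU _ (mk_valued hM hτ hN) fun r => hU _ (hA _) fun d => hU _ hMτ fun m => ?_
  rw [mk_singleton]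
  exact one_le_aleph0.trans h2

theorem exists_closed {Λ M X : Type} {τ : Cardinal.{0}} (hM : ℵ₀ ≤ #M) (hτ : τ = 2 ^ #M)
    (e : Λ → M → X) (A : (M → Option X) → Set Λ) (hA : ∀ r, #(A r) ≤ τ) :
    ∃ N : Set X, #N ≤ τ ∧ ∀ r, Valued N r → ∀ d ∈ A r, ∀ m, e d m ∈ N := by
  have h2 : ℵ₀ ≤ τ := hM.trans (hτ ▸ (cantor _).le)
  have hU : ∀ {ι : Type} (f : ι → Set X), #ι ≤ τ → (∀ i, #(f i) ≤ τ) → #(⋃ i, f i) ≤ τ := by
    intro ι f hι hf
    refine (mk_iUnion_le _).trans ?_
    exact (mul_le_mul' hι (ciSup_le' hf)).trans (mul_eq_self h2).le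
  let J := (Order.succ #M).ord.ToType
  have hJ : #J = Order.succ #M := by simp [J]
  have hJτ : #J ≤ τ := by
    rw [hJ, hτ]
    exact Order.succ_le_of_lt (cantor _)
  have hreg : (Order.succ #M).IsRegular := isRegular_succ hM
  have wf : WellFounded ((· < ·) : J → J → Prop) := wellFounded_lt
  let F : J → Set X := wf.fix fun j F => ⋃ i : Iio j, step e A (F i.1 i.2)
  have hF : ∀ j, F j = ⋃ i : Iio j, step e A (F i.1) := fun j => wf.fix_eq _ j
  have hlt : ∀ {i j}, i < j → step e A (F i) ⊆ F j := by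
    intro i j hij x hx
    rw [hF j]
    exact mem_iUnion.2 ⟨⟨i, hij⟩, hx⟩
  have hmono : ∀ {i j}, i ≤ j → F i ⊆ F j := by
    intro i j hij
    rcases hij.eq_or_lt with rfl | h
    · exact subset_rfl
    · exact (subset_union_left).trans (hlt h)
  have hsize : ∀ j, #(F j) ≤ τ := by
    intro j
    induction j using wf.induction with
    | _ j ih =>
      rw [hF j]
      exact hU _ ((mk_set_le _).trans hJτ) fun i => mk_step hM hτ e A hA (ih i.1 i.2)
  -- each family of `#M` elements of `J` is bounded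
  have hbdd : ∀ g : M → J, ∃ j, ∀ m, g m < j := by
    intro g
    by_contra hcon
    push Not at hcon
    have hcof : IsCofinal (range g) := by
      intro j
      obtain ⟨m, hm⟩ := hcon j
      exact ⟨g m, mem_range_self m, hm⟩
    have h1 : Order.cof J ≤ #(range g) := Order.cof_le hcof
    have h3 : Order.cof J = Order.succ #M := by
      have := hreg.cof_ord
      simpa [J] using this
    rw [h3] at h1
    exact absurd (h1.trans mk_range_le) (not_le.2 (Order.lt_succ _))
  refine ⟨⋃ j, F j, hU _ hJτ hsize, ?_⟩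
  intro r hr d hd m
  classical
  have hne : Nonempty J := by
    have : #J ≠ 0 := by rw [hJ]; exact (Order.bot_lt_succ _).ne'
    exact mk_ne_zero_iff.1 this
  have hch : ∀ m, ∃ j, ∀ x, r m = some x → x ∈ F j := by
    intro m
    rcases hm : r m with _ | x
    · exact ⟨Classical.arbitrary J, by simp⟩
    · obtain ⟨j, hj⟩ := mem_iUnion.1 (hr m x hm)
      exact ⟨j, by rintro y hy; cases hy; exact hj⟩
  choose g hg using hch
  obtain ⟨j, hj⟩ := hbdd g
  obtain ⟨j', hj'⟩ := hbdd fun _ => j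
  have hjj : j < j' := by
    have : Nonempty M := by
      have h0 : #M ≠ 0 := (aleph0_pos.trans_le hM).ne'
      exact mk_ne_zero_iff.1 h0
    exact hj' (Classical.arbitrary M)
  refine mem_iUnion.2 ⟨j', hlt hjj (Or.inr ⟨r, ?_, d, hd, m, rfl⟩)⟩
  intro m x hx
  exact hmono (hj m).le (hg m x hx)

/-- Delta system lemma for functions: there are more than `2 ^ #M` functions `e δ : M → X` in `H`
which agree on a set of arguments (where `r` is defined) and are as different as possible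
elsewhere. -/
theorem delta_system {Λ M X : Type} (hM : ℵ₀ ≤ #M) (hΛ : 2 ^ #M < #Λ) (e : Λ → M → X) :
    ∃ (r : M → Option X) (H : Set Λ), 2 ^ #M < #H ∧
      (∀ δ ∈ H, ∀ m x, r m = some x → e δ m = x) ∧
      (∀ δ ∈ H, ∀ δ' ∈ H, δ ≠ δ' → ∀ m m', r m = none → r m' = none → e δ m ≠ e δ' m') ∧
      (∀ δ ∈ H, ∀ m m' x, r m = none → r m' = some x → e δ m ≠ x) := by
  classical
  by_contra hcon
  have hsmall : ∀ r H, Gd e r H → #H ≤ 2 ^ #M := by
    intro r H hH
    by_contra h
    exact hcon ⟨r, H, not_le.1 h, hH⟩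
  choose A hA using exists_max e
  have hAs : ∀ r, #(A r) ≤ 2 ^ #M := fun r => hsmall r _ (hA r).prop
  obtain ⟨N, hN, hcl⟩ := exists_closed hM rfl e A hAs
  have h2 : ℵ₀ ≤ 2 ^ #M := hM.trans (cantor _).le
  have hD : #(⋃ r : {r : M → Option X // Valued N r}, A r.1) ≤ 2 ^ #M := by
    refine (mk_iUnion_le _).trans ?_
    exact (mul_le_mul' (mk_valued hM rfl hN) (ciSup_le' fun r => hAs _)).trans (mul_eq_self h2).le
  obtain ⟨d, hd⟩ : ∃ d, d ∉ ⋃ r : {r : M → Option X // Valued N r}, A r.1 := by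
    by_contra h
    push Not at h
    have : (⋃ r : {r : M → Option X // Valued N r}, A r.1) = Set.univ := eq_univ_of_forall h
    rw [this, mk_univ] at hD
    exact absurd hΛ (not_lt.2 hD)
  let r : M → Option X := fun m => if e d m ∈ N then some (e d m) else none
  have hr1 : ∀ m x, r m = some x → e d m = x ∧ x ∈ N := by
    intro m x h
    simp only [r] at h
    split_ifs at h with h'
    · cases h
      exact ⟨rfl, h'⟩
  have hr2 : ∀ m, r m = none → e d m ∉ N := by
    intro m h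
    simp only [r] at h
    split_ifs at h with h'
    · exact h'
  have hrv : Valued N r := fun m x h => (hr1 m x h).2
  have hdA : d ∉ A r := fun h => hd (mem_iUnion.2 ⟨⟨r, hrv⟩, h⟩)
  apply hdA
  have hins : Gd e r (insert d (A r)) := by
    refine ⟨?_, ?_, ?_⟩
    · rintro δ (rfl | hδ) m x h
      · exact (hr1 m x h).1
      · exact (hA r).prop.1 δ hδ m x h
    · rintro δ (rfl | hδ) δ' (rfl | hδ') hne m m' hm hm'
      · exact absurd rfl hne
      · intro h
        exact hr2 m hm (h ▸ hcl r hrv δ' hδ' m')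
      · intro h
        exact hr2 m' hm' (h ▸ hcl r hrv δ hδ m)
      · exact (hA r).prop.2.1 δ hδ δ' hδ' hne m m' hm hm'
    · rintro δ (rfl | hδ) m m' x hm hm'
      · intro h
        exact hr2 m hm (h ▸ (hr1 m' x hm').2)
      · exact (hA r).prop.2.2 δ hδ m m' x hm hm'
  exact (hA r).le_of_ge hins (subset_insert _ _) (mem_insert _ _)

end Pool.Agent.TH785.J659
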