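import Mathlib

/-!
# Cardinalities of initial segments of a well-ordered set
-/

set_option autoImplicit false

namespace Pool.Agent.TH785.WO

open Cardinal Ordinal Set

section

variable {K : Type} [LinearOrder K] [WellFoundedLT K]

theorem card_typein' (b : K) : (typein (· < · : K → K → Prop) b).card = #(Iio b) :=
  card_typein b

/-- Each smaller cardinal is the number of predecessors of an element. -/
theorem exists_card_lt {b : K} {x : Cardinal.{0}} (hx : x < #(Iio b)) :
    ∃ a < b, #(Iio a) = x := by
  rw [← card_typein'] at hx
  have h1 : x.ord < typein (· < · : K → K → Prop) b := by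
    refine lt_of_le_of_ne (ord_le.2 hx.le) fun h => ?_
    rw [← h, card_ord] at hx
    exact lt_irrefl _ hx
  obtain ⟨a, ha⟩ := typein_surj (· < · : K → K → Prop)
    (h1.trans (typein_lt_type (· < · : K → K → Prop) b))
  refine ⟨a, ?_, ?_⟩
  · rw [← ha] at h1
    exact (typein_lt_typein (· < · : K → K → Prop)).1 h1
  · rw [← card_typein', ha, card_ord]

theorem exists_card {x : Cardinal.{0}} (hx : x < #K) : ∃ a : K, #(Iio a) = x := by
  have h1 : x.ord < type (· < · : K → K → Prop) :=
    (ord_lt_ord.2 hx).trans_le (ord_le_type _)
  obtain ⟨a, ha⟩ := typein_surj (· < · : K → K → Prop) h1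
  exact ⟨a, by rw [← card_typein', ha, card_ord]⟩

/-- If all initial segments are smaller than `K` then the order type of `K` is a cardinal. -/
theorem type_eq_ord (h : ∀ a : K, #(Iio a) < #K) :
    Ordinal.type (· < · : K → K → Prop) = (#K).ord := by
  refine le_antisymm ?_ (ord_le_type _)
  by_contra hcon
  rw [not_le] at hcon
  obtain ⟨a, ha⟩ := typein_surj (· < · : K → K → Prop) hcon
  have h1 := h a
  rw [← card_typein', ha, card_ord] at h1
  exact lt_irrefl _ h1

end

end Pool.Agent.TH785.WO
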