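import Pool.Agent.TH760.Base
import Pool.Agent.W868.KP.Comb
import Pool.Agent.TH785.J.WO

/-!
# Inaccessible elements of a well-ordered set with a normal ultrafilter
-/

set_option autoImplicit false
set_option linter.unusedSectionVars false
set_option linter.deprecated false

namespace Pool.Agent.TH785.J661

open Cardinal Set Filter
open Pool.Agent.TH760
open Pool.Agent.W868.KP (Normal diag compl Reg eventually_reg)

section

variable {K : Type} [LinearOrder K] [WellFoundedLT K] {U : Ultrafilter K} (hU : Normal U)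

include hU

theorem closed (g : K → K) : ∀ᶠ b in (U : Filter K), ∀ a < b, g a < b :=
  diag hU (S := fun a b => g a < b) fun a => hU.large (g a)

theorem card_Iio_lt (a : K) : #(Iio a) < #K := by
  classical
  by_contra hcon
  rw [not_lt] at hcon
  obtain ⟨g⟩ : Nonempty (K ↪ Iio a) := hcon
  have : (U : Filter K).NeBot := U.neBot
  have h0 : Nonempty K := Filter.nonempty_of_neBot (U : Filter K)
  obtain ⟨a0⟩ := h0
  let f : K → K := fun z => if h : ∃ y, (g y : K) = z then h.choose else a0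
  have hf : ∀ y, f (g y) = y := by
    intro y
    have h : ∃ y', (g y' : K) = g y := ⟨y, rfl⟩
    have h1 : f (g y) = h.choose := dif_pos h
    rw [h1]
    exact g.injective (Subtype.ext h.choose_spec)
  obtain ⟨ξ, hξ⟩ := (compl hU (S := fun ζ ξ => ξ ≠ f ζ) (c := a) fun ζ _ =>
    (hU.large (f ζ)).mono fun ξ h => h.ne').exists
  exact hξ (g ξ) (g ξ).2 (hf ξ).symm

theorem card_set_lt (a : K) : #(Set (Iio a)) < #K := by
  classical
  by_contra hcon
  rw [not_lt] at hcon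
  obtain ⟨f⟩ : Nonempty (K ↪ Set (Iio a)) := hcon
  let E : K → Prop := fun i => ∀ᶠ ξ in (U : Filter K), ∃ h : i < a, (⟨i, h⟩ : Iio a) ∈ f ξ
  have h1 : ∀ᶠ ξ in (U : Filter K), ∀ i < a, ((∃ h : i < a, (⟨i, h⟩ : Iio a) ∈ f ξ) ↔ E i) := by
    refine compl hU (S := fun i ξ => ((∃ h : i < a, (⟨i, h⟩ : Iio a) ∈ f ξ) ↔ E i)) fun i _ => ?_
    by_cases hE : E i
    · exact hE.mono fun ξ h => iff_of_true h hE
    · have h2 := Ultrafilter.eventually_not.2 hE
      exact h2.mono fun ξ h => iff_of_false h hE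
  obtain ⟨ξ, hξ⟩ := h1.exists
  obtain ⟨η, hη, hlt⟩ := (h1.and (hU.large ξ)).exists
  have h3 : f ξ = f η := by
    ext ⟨i, hi⟩
    have h4 := hξ i hi
    have h5 := hη i hi
    constructor
    · intro h
      obtain ⟨_, h6⟩ := h5.2 (h4.1 ⟨hi, h⟩)
      exact h6
    · intro h
      obtain ⟨_, h6⟩ := h4.2 (h5.1 ⟨hi, h⟩)
      exact h6
  exact hlt.ne (f.injective h3)

theorem exists_pow (a : K) : ∃ b : K, #(Set (Iio a)) < #(Iio b) := by
  obtain ⟨c, hc⟩ := WO.exists_card (card_set_lt hU a)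
  obtain ⟨b, hb⟩ := WO.exists_card (card_set_lt hU c)
  refine ⟨b, ?_⟩
  rw [hb, mk_set (α := Iio c), hc]
  exact cantor _

theorem reg_infinite {b : K} (hb : Reg b) : ℵ₀ ≤ #(Iio b) := by
  rw [← infinite_iff]
  by_contra hfin
  rw [not_infinite_iff_finite] at hfin
  obtain ⟨⟨c, hc⟩, h2, -⟩ := hb
  have : Nonempty (Iio b) := ⟨⟨c, hc⟩⟩
  obtain ⟨m, hm⟩ := Finite.exists_max (fun x : Iio b => (x : K))
  obtain ⟨y, hy, hmy⟩ := h2 m.1 m.2
  exact absurd hmy (not_lt.2 (hm ⟨y, hy⟩))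

theorem eventually_inac : ∀ᶠ b in (U : Filter K), Inac b := by
  classical
  choose g hg using exists_pow hU
  obtain ⟨w, hw⟩ := (eventually_reg hU).exists
  have hw' := reg_infinite hU hw
  filter_upwards [eventually_reg hU, closed hU g, hU.large w] with b hb hgb hwb
  have hmono : ∀ {x y : K}, x ≤ y → #(Iio x) ≤ #(Iio y) := fun h => mk_le_mk_of_subset
    (Iio_subset_Iio h)
  have hlt : ∀ a < b, #(Set (Iio a)) < #(Iio b) := fun a ha =>
    (hg a).trans_le (hmono (hgb a ha).le)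
  have hlt' : ∀ a < b, #(Iio a) < #(Iio b) := fun a ha => by
    refine lt_trans ?_ (hlt a ha)
    rw [mk_set]
    exact cantor _
  refine ⟨⟨hw'.trans_lt (hlt' w hwb), ?_, ?_⟩, hlt'⟩
  · have htype : Ordinal.type (· < · : Iio b → Iio b → Prop) = (#(Iio b)).ord := by
      refine WO.type_eq_ord fun a => ?_
      refine lt_of_le_of_lt ?_ (hlt' a.1 a.2)
      refine mk_le_of_injective (f := fun x : Iio a => (⟨x.1.1, x.2⟩ : Iio a.1)) ?_
      intro x y h
      exact Subtype.ext (Subtype.ext (congrArg (fun z : Iio a.1 => (z : K)) h))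
    rw [← htype, Ordinal.cof_type]
    by_contra hcon
    rw [not_le] at hcon
    obtain ⟨s, hs, hs'⟩ := Order.exists_cof_eq (Iio b)
    rw [← hs'] at hcon
    obtain ⟨c, hc, hcs⟩ := WO.exists_card_lt hcon
    obtain ⟨e⟩ : Nonempty (Iio c ≃ s) := Cardinal.eq.1 hcs
    obtain ⟨d, hd, hfd⟩ := hb.2.2 c hc (fun i => if h : i < c then ((e ⟨i, h⟩).1 : K) else i) (by
      intro i hi
      rw [dif_pos hi]
      exact (e ⟨i, hi⟩).1.2)
    obtain ⟨x, hx, hdx⟩ := hs ⟨d, hd⟩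
    have h4 := hfd (e.symm ⟨x, hx⟩).1 (e.symm ⟨x, hx⟩).2
    rw [dif_pos (show (e.symm ⟨x, hx⟩).1 < c from (e.symm ⟨x, hx⟩).2)] at h4
    have h5 : (e ⟨(e.symm ⟨x, hx⟩).1, (e.symm ⟨x, hx⟩).2⟩) = ⟨x, hx⟩ := by simp
    rw [h5] at h4
    exact absurd h4 (not_lt.2 hdx)
  · intro x hx
    obtain ⟨a, ha, rfl⟩ := WO.exists_card_lt hx
    have := hlt a ha
    rwa [mk_set] at this

/-- The inaccessible elements closed under some function under which no smaller inaccessible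
element is closed. -/
def First (α : K) : Prop :=
  Inac α ∧ ∃ b : K → K, (∀ ν < α, b ν < α) ∧ ∀ β < α, Inac β → ¬ ∀ ν < β, b ν < β

theorem first_null : ∀ᶠ ξ in (U : Filter K), ¬ First ξ := by
  classical
  by_contra hcon
  rw [← Ultrafilter.eventually_not] at hcon
  have h1 : ∀ᶠ ξ in (U : Filter K), First ξ := hcon.mono fun ξ h => not_not.1 h
  let B : K → K → K := fun α => if h : First α then h.2.choose else id
  have hB : ∀ α, First α → (∀ ν < α, B α ν < α) ∧ ∀ β < α, Inac β → ¬ ∀ ν < β, B α ν < β := by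
    intro α h
    have : B α = h.2.choose := dif_pos h
    rw [this]
    exact h.2.choose_spec
  have h2 : ∀ ν, ∃ c, ∀ᶠ α in (U : Filter K), B α ν = c := by
    intro ν
    refine hU.press (fun α => B α ν) ?_
    filter_upwards [h1, hU.large ν] with α h3 h4
    exact (hB α h3).1 ν h4
  choose b hb using h2
  have h3 : ∀ᶠ α in (U : Filter K), ∀ ν < α, B α ν = b ν := diag hU hb
  obtain ⟨β, hβ1, hβ2, hβ3⟩ := (h1.and (h3.and (closed hU b))).exists
  obtain ⟨α, hα1, hα2, hα3⟩ := (h1.and (h3.and (hU.large β))).exists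
  refine (hB α hα1).2 β hα3 hβ1.1 fun ν hν => ?_
  rw [hα2 ν (hν.trans hα3)]
  exact hβ3 ν hν

theorem exists_first (h : K → K) : ∃ α, First α ∧ ∀ ν < α, h ν < α := by
  have h1 : ∃ α, Inac α ∧ ∀ ν < α, h ν < α := ((eventually_inac hU).and (closed hU h)).exists
  have wf : WellFounded ((· < ·) : K → K → Prop) := wellFounded_lt
  obtain ⟨α, hα, hmin⟩ := wf.has_min {α | Inac α ∧ ∀ ν < α, h ν < α} h1
  exact ⟨α, ⟨hα.1, h, hα.2, fun β hβ hβi hβc => hmin β ⟨hβi, hβc⟩ hβ⟩, hα.2⟩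

theorem tow_lt {c : Cardinal.{0}} (hc : c.IsInaccessible) {x : Cardinal.{0}} (hx : x < c) (n : ℕ) :
    tow x n < c := by
  induction n with
  | zero => exact hx
  | succ n ih => exact hc.isStrongPrelimit ih

theorem exists_tow (a : K) : ∃ ℓ : K, (∀ b, Inac b → a < b → ℓ < b) ∧ a ≤ ℓ ∧
    ∀ n, tow #(Iio a) n < #(Iio ℓ) := by
  have wf : WellFounded ((· < ·) : K → K → Prop) := wellFounded_lt
  have hmono : ∀ {x y : K}, x ≤ y → #(Iio x) ≤ #(Iio y) := fun h => mk_le_mk_of_subset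
    (Iio_subset_Iio h)
  obtain ⟨b, hb, hab⟩ := ((eventually_inac hU).and (hU.large a)).exists
  obtain ⟨ℓ, ⟨hℓ1, hℓ2⟩, hmin⟩ := wf.has_min {ℓ | a ≤ ℓ ∧ ∀ n, tow #(Iio a) n < #(Iio ℓ)}
    ⟨b, hab.le, fun n => tow_lt hU hb.1 (hb.2 a hab) n⟩
  refine ⟨ℓ, fun b hb hab => ?_, hℓ1, hℓ2⟩
  -- the supremum of the tower
  have hsup : (⨆ n, tow #(Iio a) n) < #(Iio b) := by
    refine iSup_lt_of_isRegular hb.1.isRegular ?_ fun n => tow_lt hU hb.1 (hb.2 a hab) n
    rw [mk_nat]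
    exact hb.1.aleph0_lt
  obtain ⟨c, hc, hcs⟩ := WO.exists_card_lt (hb.1.isStrongPrelimit hsup)
  by_contra hcon
  refine hmin (max a c) ⟨le_max_left _ _, fun n => ?_⟩ ((max_lt hab hc).trans_le (not_lt.1 hcon))
  refine lt_of_lt_of_le ?_ (hmono (le_max_right a c))
  rw [hcs]
  exact (le_ciSup (bddAbove_range _) n).trans_lt (cantor _)

end

/-- Facts on a well-ordered set with a normal ultrafilter. -/
theorem ground {K : Type} [LinearOrder K] [WellFoundedLT K] {U : Ultrafilter K} (hU : Normal U) :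
    (∀ᶠ ξ in (U : Filter K), Inac ξ) ∧
    (∀ a : K, #(Iio a) < #K) ∧
    (∀ a : K, #(Set (Iio a)) < #K) ∧
    (∃ X : K → Prop, (∀ α, X α → Inac α) ∧ (∀ᶠ ξ in (U : Filter K), ¬ X ξ) ∧
      ∀ h : K → K, ∃ α, X α ∧ ∀ ν < α, h ν < α) ∧
    ∃ ℓ : K → K, (∀ a b, Inac b → a < b → ℓ a < b) ∧ (∀ a, a ≤ ℓ a) ∧
      ∀ a n, tow #(Iio a) n < #(Iio (ℓ a)) := by
  refine ⟨eventually_inac hU, card_Iio_lt hU, card_set_lt hU,
    ⟨First, fun α h => h.1, first_null hU, exists_first hU⟩, ?_⟩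
  choose ℓ h1 h2 h3 using exists_tow hU
  exact ⟨ℓ, h1, h2, h3⟩

end Pool.Agent.TH785.J661
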