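import Pool.Agent.TH760.Defs
import Pool.Agent.TH785.J.WO
import Pool.Agent.W869.CC.Meas

/-!
# A well-ordered set with a measure is a measurable cardinal
-/

set_option autoImplicit false
set_option linter.unusedSectionVars false

namespace Pool.Agent.TH785.J662

open Cardinal Ordinal Set
open Pool.Agent.TH760

section

variable {K : Type} [LinearOrder K] [WellFoundedLT K] {W : (K → Prop) → Prop} (hW : IsMeas W)
  (hcl : ∀ h : K → K, ∃ α, (∃ ν, ν < α) ∧ ∀ ν, ν < α → h ν < α)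

include hW

omit [WellFoundedLT K] in
theorem nonempty : Nonempty K := by
  obtain ⟨h1, h2, h3, h4, h5⟩ := hW
  by_cases h : W fun _ => False
  · obtain ⟨ξ, -⟩ := h3 _ h
    exact ⟨ξ⟩
  · obtain ⟨ξ, -⟩ := h3 _ (h2 _ h)
    exact ⟨ξ⟩

include hcl in
omit hW [WellFoundedLT K] in
theorem exists_gt' (m : K) : ∃ a, m < a := by
  obtain ⟨α, ⟨ν, hν⟩, h⟩ := hcl fun _ => m
  exact ⟨α, h ν hν⟩

theorem univ_mem : W fun _ => True := by
  obtain ⟨ξ⟩ := nonempty hW
  exact hW.1 _ _ (hW.2.2.2.2 ξ) fun _ _ => trivial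

include hcl in
theorem inter {x y : K → Prop} (hx : W x) (hy : W y) : W fun ξ => x ξ ∧ y ξ := by
  classical
  obtain ⟨a0⟩ := nonempty hW
  obtain ⟨a1, h01⟩ := exists_gt' hcl a0
  obtain ⟨a2, h12⟩ := exists_gt' hcl a1
  have h := hW.2.2.2.1 a2 (fun ζ => if ζ = a0 then x else y) (by
    intro ζ _
    split_ifs
    · exact hx
    · exact hy)
  refine hW.1 _ _ h fun ξ hξ => ⟨?_, ?_⟩
  · have := hξ a0 (h01.trans h12)
    rwa [if_pos rfl] at this
  · have := hξ a1 h12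
    rwa [if_neg h01.ne'] at this

omit [WellFoundedLT K] in
theorem not_empty : ¬ W fun _ => False := fun h => by
  obtain ⟨ξ, hξ⟩ := hW.2.2.1 _ h
  exact hξ

/-- The ultrafilter of the sets `x` with `W x`. -/
theorem exists_ultrafilter
    (hcl : ∀ h : K → K, ∃ α, (∃ ν, ν < α) ∧ ∀ ν, ν < α → h ν < α) :
    ∃ U : Ultrafilter K, ∀ S : Set K, S ∈ U ↔ W (fun ξ => ξ ∈ S) := by
  let f : Filter K :=
    { sets := {S | W (fun ξ => ξ ∈ S)}
      univ_sets := univ_mem hW
      sets_of_superset := fun {x y} hx hxy => hW.1 _ _ hx fun ξ hξ => hxy hξ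
      inter_sets := fun {x y} hx hy => inter hW hcl hx hy }
  have hf : ∀ S : Set K, S ∈ f ↔ W (fun ξ => ξ ∈ S) := fun S => Iff.rfl
  refine ⟨Ultrafilter.ofComplNotMemIff f fun s => ?_, fun S => ?_⟩
  · rw [hf, hf]
    constructor
    · intro h
      have := hW.2.1 _ h
      exact hW.1 _ _ this fun ξ hξ => not_not.1 hξ
    · intro h h'
      refine not_empty hW ?_
      exact hW.1 _ _ (inter hW hcl h h') fun ξ hξ => hξ.2 hξ.1
  · exact hf S

theorem card_Iio_lt (a : K) : #(Iio a) < #K := by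
  classical
  by_contra hcon
  rw [not_lt] at hcon
  obtain ⟨g⟩ : Nonempty (K ↪ Iio a) := hcon
  -- a surjection of `Iio a` onto `K`
  obtain ⟨a0⟩ := nonempty hW
  let f : K → K := fun z => if h : ∃ y, (g y : K) = z then h.choose else a0
  have hf : ∀ y, f (g y) = y := by
    intro y
    have h : ∃ y', (g y' : K) = g y := ⟨y, rfl⟩
    have h1 : f (g y) = h.choose := dif_pos h
    rw [h1]
    exact g.injective (Subtype.ext h.choose_spec)
  obtain ⟨ξ, hξ⟩ := hW.2.2.1 _ (hW.2.2.2.1 a (fun ζ ξ => ξ ≠ f ζ) fun ζ _ => hW.2.2.2.2 _)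
  exact hξ (g ξ) (g ξ).2 (hf ξ).symm

end

/-- A well-ordered set with a measure `W`, in which each function has a closure point, is
a measurable cardinal. -/
theorem measurable_of {K : Type} [LinearOrder K] [WellFoundedLT K]
    (hW : ∃ W : (K → Prop) → Prop, IsMeas W)
    (hcl : ∀ h : K → K, ∃ α, (∃ ν, ν < α) ∧ ∀ ν, ν < α → h ν < α) :
    Ordinal.type (· < · : K → K → Prop) = (#K).ord ∧ IsMeasurable #K ∧
      (#K).IsInaccessible := by
  classical
  obtain ⟨W, hW⟩ := hW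
  have hlt : ∀ a : K, #(Iio a) < #K := card_Iio_lt hW
  have htype := WO.type_eq_ord hlt
  obtain ⟨U, hU⟩ := exists_ultrafilter hW hcl
  -- `K` is uncountable
  have hunc : ℵ₀ < #K := by
    choose s hs using exists_gt' hcl
    obtain ⟨α, ⟨ν, hν⟩, h⟩ := hcl s
    refine lt_of_le_of_lt ?_ (hlt α)
    rw [← infinite_iff]
    by_contra hfin
    rw [not_infinite_iff_finite] at hfin
    have : Nonempty (Iio α) := ⟨⟨ν, hν⟩⟩
    obtain ⟨m, hm⟩ := Finite.exists_max (fun x : Iio α => (x : K))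
    exact absurd (hs m.1) (not_lt.2 (hm ⟨s m.1, h m.1 m.2⟩))
  have hmeas : IsMeasurable #K := by
    refine ⟨hunc, ?_⟩
    obtain ⟨e⟩ : Nonempty ((#K).ord.ToType ≃ K) := Cardinal.eq.1 (by simp)
    refine ⟨U.map e.symm, ?_, ?_⟩
    · intro x hx
      rw [Ultrafilter.mem_map, hU] at hx
      refine not_empty hW (hW.1 _ _ (inter hW hcl hx (hW.2.2.2.2 (e x))) ?_)
      rintro ξ ⟨h1, h2⟩
      apply h2
      have h3 : e.symm ξ = x := h1
      rw [← h3, Equiv.apply_symm_apply]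
    · intro F hF hFU
      obtain ⟨a, ha⟩ := WO.exists_card (K := K) hF
      obtain ⟨g⟩ : Nonempty (Iio a ≃ F) := Cardinal.eq.1 ha
      rw [Ultrafilter.mem_map, hU]
      have h := hW.2.2.2.1 a (fun ζ ξ => ∀ h : ζ < a, e.symm ξ ∈ (g ⟨ζ, h⟩).1) (by
        intro ζ hζ
        have h1 := hFU _ (g ⟨ζ, hζ⟩).2
        rw [Ultrafilter.mem_map, hU] at h1
        exact hW.1 _ _ h1 fun ξ hξ _ => hξ)
      refine hW.1 _ _ h fun ξ hξ => ?_
      intro X hX
      have h2 := hξ (g.symm ⟨X, hX⟩).1 (g.symm ⟨X, hX⟩).2 (g.symm ⟨X, hX⟩).2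
      simpa using h2
  refine ⟨htype, hmeas, ?_⟩
  exact Pool.Agent.W869.CC.IsMeasurable.isInaccessible hmeas

end Pool.Agent.TH785.J662
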